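import Mathlib

set_option autoImplicit false

namespace Pool.Agent.Results.MP_f2e062_co.Bounds

/-- The first `m` symbols of `x`, most recent first. -/
def hist {A : Type} (x : ℕ → A) : ℕ → List A
  | 0 => []
  | m + 1 => x m :: hist x m

/-- Player 1 (who chooses the symbols `x 0, x 2, ...`) follows the strategy `σ`. -/
def Follows {A : Type} (σ : List A → A) (x : ℕ → A) : Prop := ∀ k, x (2 * k) = σ (hist x (2 * k))

/-- No block of total length at least 3 is a concatenation of `k ≥ 2` identical words of
length `r`. -/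
def Good {A : Type} (x : ℕ → A) : Prop :=
  ¬ ∃ l r k : ℕ, 1 ≤ r ∧ 2 ≤ k ∧ 3 ≤ k * r ∧ ∀ j < k, ∀ i < r, x (l + j * r + i) = x (l + i)

/-- Player 1 has a strategy in the `c`-ary game. -/
def HasStrategy (c : ℕ) : Prop :=
  ∃ σ : List (Fin c) → Fin c, ∀ x : ℕ → Fin c, Follows σ x → Good x

lemma hist_len {A : Type} (x : ℕ → A) (m : ℕ) : (hist x m).length = m := by
  induction m with
  | zero => rfl
  | succ m ih => simp [hist, ih]

lemma hist_get {A : Type} (x : ℕ → A) (m : ℕ) : ∀ i < m, (hist x m)[i]? = some (x (m - 1 - i)) := by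
  induction m with
  | zero => intro i hi; omega
  | succ m ih =>
    intro i hi
    rcases i with _ | i
    · simp [hist]
    · simp only [hist, List.getElem?_cons_succ]
      rw [ih i (by omega)]; congr 2; omega

section Upper
variable {A : Type}

/-- All but one of the matches of a square of period `r` at the end of the word. -/
def Threat (r : ℕ) (v : List A) : Prop :=
  2 * r ≤ v.length + 1 ∧ ∀ i, i + 1 < r → v[i]? = v[i + r]?

/-- A safe move of Player 1. -/
def OK (v : List A) : Prop := v[0]? ≠ v[1]? ∧ ∀ r, 2 ≤ r → ¬ Threat r v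

open Classical in
/-- Safe plays against the reply function `f`. -/
noncomputable def S [Fintype A] (f : List A → A) : ℕ → Finset (List A)
  | 0 => {[]}
  | n + 1 => ((S f n ×ˢ (Finset.univ : Finset A)).filter fun p => OK (p.2 :: p.1)).image
      fun p => f (p.2 :: p.1) :: p.2 :: p.1

variable [Fintype A] (f : List A → A)

lemma mem_S (n : ℕ) (w : List A) (h : w ∈ S f (n + 1)) :
    ∃ u a, u ∈ S f n ∧ OK (a :: u) ∧ w = f (a :: u) :: a :: u := by
  simp only [S, Finset.mem_image, Finset.mem_filter, Finset.mem_product] at h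
  obtain ⟨⟨u, a⟩, ⟨⟨h1, -⟩, h2⟩, rfl⟩ := h
  exact ⟨u, a, h1, h2, rfl⟩

lemma len_S (n : ℕ) : ∀ w ∈ S f n, w.length = 2 * n := by
  induction n with
  | zero => intro w h; simp only [S, Finset.mem_singleton] at h; simp [h]
  | succ n ih =>
    intro w h
    obtain ⟨u, a, h1, -, rfl⟩ := mem_S f n w h
    simp [ih u h1]; omega

lemma drop_S (k : ℕ) : ∀ n, ∀ w ∈ S f (n + k), w.drop (2 * k) ∈ S f n := by
  induction k with
  | zero => intro n w h; simpa using h
  | succ k ih =>
    intro n w h
    obtain ⟨u, a, h1, -, rfl⟩ := mem_S f (n + k) w h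
    exact ih n u h1

lemma ok_S (n k : ℕ) (w : List A) (h : w ∈ S f n) (hk : k < n) :
    w[2 * k + 1]? ≠ w[2 * k + 2]? ∧ (k + 1 < n → w[2 * k + 1]? ≠ w[2 * k + 3]?) := by
  obtain ⟨m, rfl⟩ : ∃ m, n = m + 1 + k := ⟨n - 1 - k, by omega⟩
  obtain ⟨u, a, h1, h2, h3⟩ := mem_S f m _ (drop_S f k (m + 1) w h)
  have e : ∀ i, (a :: u)[i]? = w[2 * k + 1 + i]? := by
    intro i
    have : (w.drop (2 * k))[i + 1]? = (a :: u)[i]? := by rw [h3]; rfl
    rw [← this, List.getElem?_drop]; congr 1; omega
  refine ⟨by simpa only [e] using h2.1, fun hm h4 => h2.2 2 le_rfl ⟨?_, fun i hi => ?_⟩⟩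
  · simp [len_S f m u h1]; omega
  · obtain rfl : i = 0 := by omega
    rw [e, e]; exact h4

open Classical in
lemma long_card (n k r : ℕ) (hk : k ≤ n) (hr : 2 * (n - k) + 2 ≤ r) :
    ((S f n ×ˢ (Finset.univ : Finset A)).filter fun p => Threat r (p.2 :: p.1)).card ≤
      (S f k).card := by
  refine Finset.card_le_card_of_injOn (fun p => p.1.drop (2 * (n - k))) ?_ ?_
  · intro p hp
    simp only [Finset.coe_filter, Finset.mem_product, Set.mem_ofPred_eq] at hp
    exact drop_S f (n - k) k _ (by rw [show k + (n - k) = n by omega]; exact hp.1.1)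
  · rintro ⟨w, a⟩ hp ⟨w', a'⟩ hq h
    simp only [Finset.coe_filter, Finset.mem_product, Set.mem_ofPred_eq] at hp hq h
    have e1 : ∀ i, r ≤ i + 1 → (a :: w)[i]? = (a' :: w')[i]? := by
      intro i hi
      obtain ⟨j, rfl⟩ : ∃ j, i = 2 * (n - k) + j + 1 := ⟨i - 1 - 2 * (n - k), by omega⟩
      simp only [List.getElem?_cons_succ]
      rw [← List.getElem?_drop, ← List.getElem?_drop, h]
    have e2 : a :: w = a' :: w' := by
      apply List.ext_getElem?
      intro i
      by_cases hi : r ≤ i + 1
      · exact e1 i hi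
      · rw [hp.2.2 i (by omega), hq.2.2 i (by omega)]
        exact e1 _ (by omega)
    simp only [List.cons.injEq] at e2
    rw [e2.1, e2.2]

/-- Moves excluded by the short patterns. -/
def Short (v : List A) : Prop := v[0]? = v[1]? ∨ ∃ r, 2 ≤ r ∧ r ≤ 5 ∧ Threat r v

open Classical in
lemma short_card (n : ℕ) (w : List A) (h : w ∈ S f n) :
    ((Finset.univ : Finset A).filter fun a => Short (a :: w)).card ≤ 3 := by
  have hl := len_S f n w h
  let z : Option A := if w[0]? = w[3]? then w[2]? else
    if w[0]? = w[4]? ∧ w[1]? = w[5]? then w[3]? else w[4]?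
  refine le_trans (Finset.card_le_card_of_injOn (t := {w[0]?, w[1]?, z}) some ?_
    (Option.some_injective _).injOn) Finset.card_le_three
  intro a ha
  simp only [Finset.coe_filter, Finset.mem_univ, true_and, Set.mem_ofPred_eq] at ha
  simp only [Finset.coe_insert, Finset.coe_singleton, Set.mem_insert_iff, Set.mem_singleton_iff]
  rcases ha with ha | ⟨r, h2, h5, hlen, ht⟩
  · exact Or.inl ha
  simp only [List.length_cons] at hlen
  have : r = 2 ∨ r = 3 ∨ r = 4 ∨ r = 5 := by omega
  rcases this with rfl | rfl | rfl | rfl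
  · exact Or.inr (Or.inl (ht 0 (by omega)))
  · have t0 : some a = w[2]? := ht 0 (by omega)
    have t1 : w[0]? = w[3]? := ht 1 (by omega)
    exact Or.inr (Or.inr (by simp only [z, if_pos t1, t0]))
  · have t0 : some a = w[3]? := ht 0 (by omega)
    have t1 : w[0]? = w[4]? := ht 1 (by omega)
    have t2 : w[1]? = w[5]? := ht 2 (by omega)
    have o1 : w[3]? ≠ w[4]? := (ok_S f n 1 w h (by omega)).1
    refine Or.inr (Or.inr ?_)
    simp only [z]
    rw [if_neg (fun e => o1 (e.symm.trans t1)), if_pos ⟨t1, t2⟩, t0]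
  · have t0 : some a = w[4]? := ht 0 (by omega)
    have t1 : w[0]? = w[5]? := ht 1 (by omega)
    have t2 : w[1]? = w[6]? := ht 2 (by omega)
    have o1 : w[3]? ≠ w[5]? := (ok_S f n 1 w h (by omega)).2 (by omega)
    have o2 : w[5]? ≠ w[6]? := (ok_S f n 2 w h (by omega)).1
    refine Or.inr (Or.inr ?_)
    simp only [z]
    rw [if_neg (fun e => o1 (e.symm.trans t1)), if_neg (fun e => o2 (e.2.symm.trans t2)), t0]

open Classical in
lemma step (hc : 6 ≤ Fintype.card A) (n : ℕ) :
    3 * (S f n).card ≤ (S f (n + 1)).card + 2 * ∑ k ∈ Finset.range (n - 1), (S f k).card := by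
  set P := S f n ×ˢ (Finset.univ : Finset A) with hP
  have h1 : (S f (n + 1)).card = (P.filter fun p => OK (p.2 :: p.1)).card := by
    rw [S]
    refine Finset.card_image_of_injective _ ?_
    rintro ⟨w, a⟩ ⟨w', a'⟩ h
    simp only [List.cons.injEq] at h
    rw [h.2.1, h.2.2]
  have h2 : (P.filter fun p => Short (p.2 :: p.1)).card ≤ 3 * (S f n).card := by
    refine Finset.card_le_mul_card_image_of_maps_to (f := Prod.fst) (fun p hp => ?_) 3
      (fun w hw => le_trans ?_ (short_card f n w hw))
    · exact (Finset.mem_product.1 (Finset.mem_filter.1 hp).1).1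
    · refine Finset.card_le_card_of_injOn Prod.snd ?_ ?_
      · rintro ⟨u, a⟩ hp
        simp only [Finset.coe_filter, Finset.mem_filter, Set.mem_ofPred_eq] at hp
        obtain ⟨⟨-, h3⟩, rfl⟩ := hp
        simpa using h3
      · rintro ⟨u, a⟩ hp ⟨u', a'⟩ hq h
        simp only [Finset.coe_filter, Finset.mem_filter, Set.mem_ofPred_eq] at hp hq h
        rw [hp.2, hq.2, h]
  let B : ℕ → ℕ → Finset (List A × A) := fun e =>
    fun k => P.filter fun p => Threat (2 * (n - k) + 2 + e) (p.2 :: p.1)
  have h3 : ∀ e, ((Finset.range (n - 1)).biUnion (B e)).card ≤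
      ∑ k ∈ Finset.range (n - 1), (S f k).card := fun e =>
    Finset.card_biUnion_le.trans (Finset.sum_le_sum fun k hk =>
      long_card f n k _ (by have := Finset.mem_range.1 hk; omega) (by omega))
  have h4 : P ⊆ ((P.filter fun p => OK (p.2 :: p.1)) ∪ (P.filter fun p => Short (p.2 :: p.1))) ∪
      (((Finset.range (n - 1)).biUnion (B 0)) ∪ ((Finset.range (n - 1)).biUnion (B 1))) := by
    intro p hp
    simp only [Finset.mem_union, Finset.mem_filter, Finset.mem_biUnion, Finset.mem_range, B]
    by_cases ho : OK (p.2 :: p.1)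
    · exact Or.inl (Or.inl ⟨hp, ho⟩)
    by_cases hs : Short (p.2 :: p.1)
    · exact Or.inl (Or.inr ⟨hp, hs⟩)
    right
    have : ∃ r, 2 ≤ r ∧ Threat r (p.2 :: p.1) := by
      by_contra hn
      exact ho ⟨fun e => hs (Or.inl e), fun r hr ht => hn ⟨r, hr, ht⟩⟩
    obtain ⟨r, hr, ht⟩ := this
    have h6 : 6 ≤ r := by
      by_contra h6
      exact hs (Or.inr ⟨r, hr, by omega, ht⟩)
    have hl := ht.1
    rw [List.length_cons, len_S f n _ (Finset.mem_product.1 hp).1] at hl
    rcases Nat.even_or_odd' r with ⟨j, rfl | rfl⟩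
    · exact Or.inl ⟨n + 1 - j, by omega, hp, by convert ht using 1; omega⟩
    · exact Or.inr ⟨n + 1 - j, by omega, hp, by convert ht using 1; omega⟩
  have h5 := Finset.card_le_card h4
  have h6 := Finset.card_union_le ((P.filter fun p => OK (p.2 :: p.1)) ∪
    (P.filter fun p => Short (p.2 :: p.1)))
    (((Finset.range (n - 1)).biUnion (B 0)) ∪ ((Finset.range (n - 1)).biUnion (B 1)))
  have h7 := Finset.card_union_le (P.filter fun p => OK (p.2 :: p.1))
    (P.filter fun p => Short (p.2 :: p.1))
  have h8 := Finset.card_union_le ((Finset.range (n - 1)).biUnion (B 0))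
    ((Finset.range (n - 1)).biUnion (B 1))
  have h9 : 6 * (S f n).card ≤ P.card := by
    rw [hP, Finset.card_product, Finset.card_univ, mul_comm]
    exact Nat.mul_le_mul_left _ hc
  have := h3 0
  have := h3 1
  omega

lemma grow (hc : 6 ≤ Fintype.card A) (n : ℕ) :
    ∑ k ∈ Finset.range n, (S f k).card < (S f n).card ∧
      2 * ∑ k ∈ Finset.range (n - 1), (S f k).card ≤ (S f n).card ∧
      2 * (S f n).card ≤ (S f (n + 1)).card := by
  induction n with
  | zero =>
    have := step f hc 0
    simp only [Nat.zero_sub, Finset.range_zero, Finset.sum_empty] at this ⊢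
    refine ⟨by simp [S], by omega, by omega⟩
  | succ n ih =>
    have := step f hc (n + 1)
    rw [Finset.sum_range_succ]
    simp only [Nat.add_sub_cancel] at this ⊢
    omega

/-- Player 1 can make `n` more safe moves. -/
def Win : ℕ → List A → Prop
  | 0, _ => True
  | n + 1, w => ∃ a, OK (a :: w) ∧ ∀ b, Win n (b :: a :: w)

omit [Fintype A] in
lemma win_mono : ∀ n m (w : List A), m ≤ n → Win n w → Win m w := by
  intro n
  induction n with
  | zero => intro m w h _; obtain rfl : m = 0 := by omega
            trivial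
  | succ n ih =>
    intro m w h ⟨a, h1, h2⟩
    rcases m with _ | m
    · trivial
    · exact ⟨a, h1, fun b => ih m _ (by omega) (h2 b)⟩

lemma win_all (hc : 6 ≤ Fintype.card A) (N : ℕ) : Win N ([] : List A) := by
  classical
  by_contra hN
  have : Nonempty A := Fintype.card_pos_iff.1 (by omega)
  let g : List A → A := fun v =>
    Classical.epsilon fun b => ¬ Win (N - (v.length / 2 + 1)) (b :: v)
  have key : ∀ n ≤ N, ∀ w ∈ S g n, ¬ Win (N - n) w := by
    intro n
    induction n with
    | zero => intro _ w h; simp only [S, Finset.mem_singleton] at h; simpa [h] using hN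
    | succ n ih =>
      intro hn w h
      obtain ⟨u, a, h1, h2, rfl⟩ := mem_S g n w h
      have h3 := ih (by omega) u h1
      rw [show N - n = N - (n + 1) + 1 by omega] at h3
      have h4 : ∃ b, ¬ Win (N - (n + 1)) (b :: a :: u) := by
        by_contra h5
        push Not at h5
        exact h3 ⟨a, h2, h5⟩
      have h6 : (a :: u).length / 2 + 1 = n + 1 := by
        rw [List.length_cons, len_S g n u h1]; omega
      have := Classical.epsilon_spec h4
      simp only [g, h6]
      exact this
  obtain ⟨w, hw⟩ : (S g N).Nonempty := Finset.card_pos.1 (by have := (grow g hc N).1; omega)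
  have := key N le_rfl w hw
  rw [Nat.sub_self] at this
  exact this trivial

lemma win_step (w : List A) (h : ∀ N, Win N w) :
    ∃ a, OK (a :: w) ∧ ∀ b N, Win N (b :: a :: w) := by
  by_contra hn
  have : ∀ a, ∃ N, ¬ (OK (a :: w) ∧ ∀ b, Win N (b :: a :: w)) := by
    intro a
    by_contra h1
    push Not at h1
    exact hn ⟨a, (h1 0).1, fun b N => (h1 N).2 b⟩
  choose F hF using this
  obtain ⟨M, hM⟩ := (Set.finite_range F).bddAbove
  obtain ⟨a, h1, h2⟩ := h (M + 1)
  exact hF a ⟨h1, fun b => win_mono M _ _ (hM ⟨a, rfl⟩) (h2 b)⟩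

end Upper

lemma upper (c : ℕ) (hc : 6 ≤ c) : HasStrategy c := by
  have : Nonempty (Fin c) := ⟨⟨0, by omega⟩⟩
  refine ⟨fun w => Classical.epsilon fun a => OK (a :: w) ∧ ∀ b N, Win N (b :: a :: w), ?_⟩
  intro x hx
  have key : ∀ k, (∀ N, Win N (hist x (2 * k))) → OK (hist x (2 * k + 1)) ∧
      ∀ N, Win N (hist x (2 * (k + 1))) := by
    intro k h
    have := Classical.epsilon_spec (win_step _ h)
    have e := hx k
    simp only at e
    rw [← e] at this
    exact ⟨this.1, this.2 _⟩
  have W : ∀ k N, Win N (hist x (2 * k)) := by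
    intro k
    induction k with
    | zero => exact win_all (by simpa using hc)
    | succ k ih => exact (key k ih).2
  have O := fun k => (key k (W k)).1
  rintro ⟨l, r, k, h1, h2, h3, h⟩
  by_cases hr : r = 1
  · subst hr
    have a1 := h 1 (by omega) 0 one_pos
    have a2 := h 2 (by omega) 0 one_pos
    apply (O (l / 2 + 1)).1
    rw [hist_get _ _ _ (by omega), hist_get _ _ _ (by omega)]
    rcases Nat.even_or_odd' l with ⟨j, rfl | rfl⟩
    · have := a2.trans a1.symm
      congr 1; convert this using 2 <;> omega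
    · congr 1; convert a1 using 2 <;> omega
  · refine (O ((l + 2 * r - 1) / 2)).2 r (by omega) ⟨by rw [hist_len]; omega, fun i hi => ?_⟩
    rw [hist_get _ _ _ (by omega), hist_get _ _ _ (by omega)]
    have := h 1 (by omega) (2 * ((l + 2 * r - 1) / 2) - i - r - l) (by omega)
    congr 1; convert this using 2 <;> omega

section Lower
variable {c : ℕ}

/-- A forbidden repetition at the end of the word. -/
def badB (v : List (Fin c)) : Bool :=
  ((List.range (v.length / 2 + 1)).any fun r =>
    decide (2 ≤ r) && (List.range r).all fun i => v[i]? == v[i + r]?) ||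
  (decide (3 ≤ v.length) && v[0]? == v[1]? && v[0]? == v[2]?)

lemma bad_good (x : ℕ → Fin c) (m : ℕ) (h : badB (hist x m) = true) : ¬ Good x := by
  intro hg
  apply hg
  simp only [badB, hist_len, Bool.or_eq_true, List.any_eq_true, List.mem_range,
    Bool.and_eq_true, decide_eq_true_eq, List.all_eq_true, beq_iff_eq] at h
  rcases h with ⟨r, h1, h2, h3⟩ | ⟨⟨h1, h2⟩, h3⟩
  · refine ⟨m - 2 * r, r, 2, by omega, le_rfl, by omega, fun j hj i hi => ?_⟩
    have : j = 0 ∨ j = 1 := by omega
    rcases this with rfl | rfl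
    · simp
    · have := h3 (r - 1 - i) (by omega)
      rw [hist_get _ _ _ (by omega), hist_get _ _ _ (by omega)] at this
      convert Option.some.inj this using 2 <;> omega
  · rw [hist_get _ _ _ (by omega), hist_get _ _ _ (by omega)] at h2 h3
    have h2 := Option.some.inj h2
    have h3 := Option.some.inj h3
    refine ⟨m - 3, 1, 3, le_rfl, by omega, by omega, fun j hj i hi => ?_⟩
    have : j = 0 ∨ j = 1 ∨ j = 2 := by omega
    rcases this with rfl | rfl | rfl
    · simp
    · convert h2.symm.trans h3 using 2 <;> omega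
    · convert h3 using 2 <;> omega

/-- Player 2 wins within `n` rounds with the reply function `f`. -/
def lose (f : List (Fin c) → Fin c) : ℕ → List (Fin c) → Bool
  | 0, _ => false
  | n + 1, w => (List.finRange c).all fun a =>
      badB (a :: w) || badB (f (a :: w) :: a :: w) || lose f n (f (a :: w) :: a :: w)

/-- The positions of the play of `σ` against `f`. -/
def pos (σ f : List (Fin c) → Fin c) : ℕ → List (Fin c)
  | 0 => []
  | k + 1 => f (σ (pos σ f k) :: pos σ f k) :: σ (pos σ f k) :: pos σ f k

lemma no_strategy (f : List (Fin c) → Fin c) (N : ℕ) (h : lose f N [] = true) :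
    ¬ HasStrategy c := by
  rintro ⟨σ, hσ⟩
  let x : ℕ → Fin c := fun i => if i % 2 = 0 then σ (pos σ f (i / 2)) else
    f (σ (pos σ f (i / 2)) :: pos σ f (i / 2))
  have x0 : ∀ k, x (2 * k) = σ (pos σ f k) := fun k => by
    simp only [x]; rw [if_pos (by omega), show 2 * k / 2 = k by omega]
  have x1 : ∀ k, x (2 * k + 1) = f (σ (pos σ f k) :: pos σ f k) := fun k => by
    simp only [x]; rw [if_neg (by omega), show (2 * k + 1) / 2 = k by omega]
  have hh : ∀ k, hist x (2 * k) = pos σ f k := by
    intro k
    induction k with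
    | zero => rfl
    | succ k ih =>
      change x (2 * k + 1) :: x (2 * k) :: hist x (2 * k) = _
      rw [x0, x1, ih]; rfl
  have hg := hσ x (fun k => by rw [x0, hh])
  have : ∀ n k, lose f n (pos σ f k) = true → False := by
    intro n
    induction n with
    | zero => intro k h; simp [lose] at h
    | succ n ih =>
      intro k h
      simp only [lose, List.all_eq_true, Bool.or_eq_true] at h
      rcases h (σ (pos σ f k)) (List.mem_finRange _) with (h | h) | h
      · refine bad_good x (2 * k + 1) ?_ hg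
        change badB (x (2 * k) :: hist x (2 * k)) = true
        rw [x0, hh]; exact h
      · refine bad_good x (2 * (k + 1)) ?_ hg
        rw [hh]; exact h
      · exact ih (k + 1) h
  exact this N 0 h

end Lower

/-- Reply tables for Player 2. -/
def tab : ℕ → List (ℕ × ℕ)
  | 1 => [(4, 0)]
  | 2 => [(4, 1), (68, 1), (69, 1), (5, 0), (80, 0), (81, 0)]
  | 3 => [(4, 1), (68, 1), (69, 1), (70, 0), (1120, 0), (1121, 2), (1122, 0), (5, 0), (80, 0), (81, 0), (82, 1), (1316, 2), (1317, 1), (1318, 1), (6, 0), (96, 0), (97, 2), (1560, 1), (1561, 2), (1562, 2), (98, 0)]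
  | 4 => [(4, 1), (68, 1), (69, 1), (70, 0), (1120, 0), (1121, 2), (1122, 0), (1123, 2), (17976, 3), (17977, 3), (287644, 1), (4602308, 1), (4602309, 1), (4602310, 0), (73636960, 0), (73636961, 2), (73636962, 0), (73636963, 2), (1178191416, 3), (1178191417, 3), (1178191418, 2), (1178191419, 2), (4602311, 0), (287645, 3), (287646, 1), (287647, 3), (17978, 2), (17979, 2), (71, 0), (1136, 0), (1137, 3), (1138, 3), (18220, 2), (18221, 2), (291544, 1), (4664708, 1), (4664709, 1), (4664710, 0), (4664711, 0), (74635376, 0), (74635377, 3), (74635378, 3), (1194166060, 2), (1194166061, 2), (1194166062, 3), (1194166063, 3), (74635379, 0), (291545, 2), (291546, 2), (291547, 1), (18222, 3), (18223, 3), (1139, 0), (5, 0), (80, 0), (81, 0), (82, 1), (1316, 2), (1317, 1), (1318, 1), (1319, 2), (21112, 3), (337804, 3), (337805, 0), (5404880, 0), (5404881, 0), (5404882, 1), (86478116, 2), (86478117, 1), (86478118, 1), (86478119, 2), (1383649912, 3), (1383649913, 3), (1383649914, 2), (1383649915, 2), (5404883, 1), (337806, 0), (337807,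 3), (21113, 3), (21114, 2), (21115, 2), (83, 1), (1332, 3), (1333, 1), (1334, 3), (21356, 2), (341704, 2), (341705, 0), (5467280, 0), (5467281, 0), (5467282, 1), (5467283, 1), (87476532, 3), (87476533, 1), (87476534, 3), (1399624556, 2), (1399624557, 2), (1399624558, 3), (1399624559, 3), (87476535, 1), (341706, 2), (341707, 0), (21357, 2), (21358, 3), (21359, 3), (1335, 1), (6, 0), (96, 0), (97, 2), (1560, 1), (1561, 2), (1562, 2), (1563, 1), (25012, 3), (400204, 3), (400205, 0), (400206, 0), (6403296, 0), (6403297, 2), (102452760, 1), (102452761, 2), (102452762, 2), (102452763, 1), (1639244212, 3), (1639244213, 1), (1639244214, 3), (1639244215, 1), (6403298, 0), (6403299, 2), (400207, 3), (25013, 1), (25014, 3), (25015, 1), (98, 0), (99, 2), (1592, 3), (1593, 3), (25500, 1), (408004, 1), (408005, 1), (408006, 0), (6528096, 0), (6528097, 2), (6528098, 0), (6528099, 2), (104449592, 3), (104449593, 3), (1671193500, 1), (1671193501, 3), (1671193502, 1), (1671193503, 3), (104449594, 2), (104449595, 2), (408007, 0), (25501,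 3), (25502, 1), (25503, 3), (1594, 2), (1595, 2), (7, 0), (112, 0), (113, 3), (1820, 1), (1821, 3), (1822, 1), (29156, 2), (466504, 2), (466505, 0), (466506, 2), (466507, 0), (7464112, 0), (7464113, 3), (119425820, 1), (119425821, 3), (119425822, 1), (1910813156, 2), (1910813157, 1), (1910813158, 1), (1910813159, 2), (119425823, 3), (7464114, 3), (7464115, 0), (29157, 1), (29158, 1), (29159, 2), (1823, 3), (114, 3), (1836, 2), (1837, 2), (29400, 1), (470404, 1), (470405, 1), (470406, 0), (470407, 0), (7526512, 0), (7526513, 3), (7526514, 3), (120424236, 2), (120424237, 2), (1926787800, 1), (1926787801, 2), (1926787802, 2), (1926787803, 1), (120424238, 3), (120424239, 3), (7526515, 0), (29401, 2), (29402, 2), (29403, 1), (1838, 3), (1839, 3), (115, 0)]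
  | _ => []

/-- Player 2's reply function. -/
def rep (c : ℕ) [NeZero c] (v : List (Fin c)) : Fin c :=
  Fin.ofNat c (((tab c).lookup (v.foldr (fun a s => s * 4 + a.val) 1)).getD 0)

theorem result : (∀ c, 1 ≤ c → c ≤ 4 → ¬ HasStrategy c) ∧ ∀ c, 6 ≤ c → HasStrategy c := by
  refine ⟨fun c h1 h4 => ?_, upper⟩
  interval_cases c
  · exact no_strategy (rep 1) 8 (by decide +kernel)
  · exact no_strategy (rep 2) 8 (by decide +kernel)
  · exact no_strategy (rep 3) 8 (by decide +kernel)
  · exact no_strategy (rep 4) 8 (by decide +kernel)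

end Pool.Agent.Results.MP_f2e062_co.Bounds
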